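import Pool.Agent.K1H54.NU.Stm2
import Pool.Agent.K1H30.OP2.Ex2

/-!
From Leray-Hopf solutions for the modes to Leray-Hopf solutions of the equations (`S_WEAK`).
-/

open Set Topology MeasureTheory
open Filter hiding ker
open scoped ENNReal

set_option autoImplicit false

namespace Pool.Agent.K1H45.NU

open Pool.Agent.Y5 Pool.Agent.Y5.D Pool.Agent.Y5.E Pool.Agent.K1H54.LO Pool.Agent.K1H54.L2
  Pool.Agent.K1H54.NU
open Pool.Agent.K1H30.OP2
open Pool.Agent.K1H21.LO (SF SS UU mem_SF mem_SS mem_UU sub_UU sum_UU sum_SS am_sum am_eq bl_ker bb)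

section

variable {I J : Type} {g : I → Fam} {S : I → Finset Z3} {R : I → ℝ} {g' : J → Fam}
  {S' : J → Finset Z3} {R' : J → ℝ}

theorem md_sum (h : Md g S R) (h' : Md g' S' R') (hd : ∀ i j, Disjoint (S i) (S' j)) :
    Md (Sum.elim g g') (Sum.elim S S') (Sum.elim R R') where
  ot := by
    rintro (i | j)
    · exact h.ot i
    · exact h'.ot j
  supp := by
    rintro (i | j)
    · exact h.supp i
    · exact h'.supp j
  flat := by
    rintro (i | j)
    · exact h.flat i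
    · exact h'.flat j
  disj := by
    rintro (i | i) (j | j) hij
    · exact h.disj i j fun e => hij (by rw [e])
    · exact hd i j
    · exact (hd j i).symm
    · exact h'.disj i j fun e => hij (by rw [e])
  ne := by
    rintro (i | j)
    · exact h.ne i
    · exact h'.ne j
  sph := by
    rintro (i | j)
    · exact h.sph i
    · exact h'.sph j

theorem wsum (h : Md g S R) (w : I → ℝ) (D : Z3 → ℝ≥0∞) (d : I → ℝ≥0∞)
    (hD : ∀ i, ∀ k ∈ S i, D k = d i) :
    ∑' k, D k * ‖Sy g w k‖ₑ ^ 2 = ∑' i, d i * ENNReal.ofReal (w i ^ 2) := by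
  classical
  have e1 : ∀ k, D k * ‖Sy g w k‖ₑ ^ 2 =
      ∑' i, if k ∈ S i then D k * ‖Sy g w k‖ₑ ^ 2 else 0 := by
    intro k
    by_cases hk : ∃ i, k ∈ S i
    · obtain ⟨i, hi⟩ := hk
      rw [tsum_eq_single i]
      · rw [if_pos hi]
      · intro j hj
        rw [if_neg fun hc => hj (h.uniq hc hi)]
    · push Not at hk
      rw [h.Sy_not w hk]
      simp
  rw [tsum_congr e1, ENNReal.tsum_comm]
  refine tsum_congr fun i => ?_
  rw [tsum_eq_sum (s := S i)]
  · have e2 : ∀ k ∈ S i, (if k ∈ S i then D k * ‖Sy g w k‖ₑ ^ 2 else 0) =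
        d i * ENNReal.ofReal (w i ^ 2) * ENNReal.ofReal (‖g i k‖ ^ 2) := by
      intro k hk
      rw [if_pos hk, hD i k hk, h.Sy_mem w hk, ← ofReal_norm_eq_enorm,
        ← ENNReal.ofReal_pow (norm_nonneg _), norm_smul, mul_pow, Real.norm_eq_abs, sq_abs,
        ENNReal.ofReal_mul (sq_nonneg _), mul_assoc]
    have e3 : ∑ k ∈ S i, ‖g i k‖ ^ 2 = 1 := by
      have hc := h.card i
      have : ∀ k ∈ S i, ‖g i k‖ ^ 2 = ((S i).card : ℝ)⁻¹ := fun k hk =>
        eq_inv_of_mul_eq_one_left (h.flat i k hk)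
      rw [Finset.sum_congr rfl this, Finset.sum_const, nsmul_eq_mul, mul_inv_cancel₀ hc.ne']
    rw [Finset.sum_congr rfl e2, ← Finset.mul_sum,
      ← ENNReal.ofReal_sum_of_nonneg (fun _ _ => sq_nonneg _), e3, ENNReal.ofReal_one, mul_one]
  · intro k hk
    rw [if_neg hk]

/-- the truncation, in terms of the amplitudes -/
theorem trn_Sy (h : Md g S R) (w : I → ℝ) (K : ℝ) :
    trn K (Sy g w) = Sy g (fun i => if R i ≤ K then w i else 0) := by
  funext k
  unfold trn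
  by_cases hk : ∃ i, k ∈ S i
  · obtain ⟨i, hi⟩ := hk
    rw [h.Sy_mem _ hi, h.Sy_mem _ hi, h.sph i k hi]
    by_cases hK : R i ≤ K
    · rw [if_pos hK, if_pos hK]
    · rw [if_neg hK, if_neg hK, zero_smul]
  · push Not at hk
    rw [h.Sy_not _ hk, h.Sy_not _ hk, ite_self]

theorem pairL (h : Md g S R) (h' : Md g' S' R') (hd : ∀ i j, Disjoint (S i) (S' j))
    (w : I ⊕ J → ℝ) (v : I → ℝ) :
    pair (Sy (Sum.elim g g') w) (Sy g v) = pair (Sy g fun i => w (Sum.inl i)) (Sy g v) := by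
  have hs := md_sum h h' hd
  unfold pair
  refine tsum_congr fun k => ?_
  by_cases hk : ∃ i, k ∈ S i
  · obtain ⟨i, hi⟩ := hk
    rw [hs.Sy_mem w (i := Sum.inl i) hi, h.Sy_mem (fun i => w (Sum.inl i)) hi]
    rfl
  · push Not at hk
    rw [h.Sy_not v hk, inner_zero_right, inner_zero_right]

theorem pairR (h : Md g S R) (h' : Md g' S' R') (hd : ∀ i j, Disjoint (S i) (S' j))
    (w : I ⊕ J → ℝ) (v : J → ℝ) :
    pair (Sy (Sum.elim g g') w) (Sy g' v) = pair (Sy g' fun j => w (Sum.inr j)) (Sy g' v) := by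
  have hs := md_sum h h' hd
  unfold pair
  refine tsum_congr fun k => ?_
  by_cases hk : ∃ i, k ∈ S' i
  · obtain ⟨i, hi⟩ := hk
    rw [hs.Sy_mem w (i := Sum.inr i) hi, h'.Sy_mem (fun i => w (Sum.inr i)) hi]
    rfl
  · push Not at hk
    rw [h'.Sy_not v hk, inner_zero_right, inner_zero_right]

end

section

variable {G : GS} {g : G.I → Fam} {S : G.I → Finset Z3} {R : G.I → ℝ}
  {g' : G.J → Fam} {S' : G.J → Finset Z3} {R' : G.J → ℝ} {lam c₀ : ℝ}

/-- The gates of the inverse cascade, in terms of the modes. -/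
theorem bR_Sy (h : Md g S R) (h' : Md g' S' R') (hd : ∀ i j, Disjoint (S i) (S' j))
    (hS : Shl G.sh G.ty G.ρ) (hS' : Shl G.sh' G.ty' G.ρ') (w : G.I ⊕ G.J → ℝ)
    {Z : Fam} (hZf : {k | Z k ≠ 0}.Finite) (F₁ : Finset G.I) (F₂ : Finset G.J)
    (hF₁ : ∀ i, (∃ k ∈ S i, Z k ≠ 0) → i ∈ F₁) (hF₂ : ∀ i, (∃ k ∈ S' i, Z k ≠ 0) → i ∈ F₂) :
    bR G.r (fun n => Sy g (fv G.sh G.ty G.ρ false n)) (fun n => Sy g' (fv G.sh' G.ty' G.ρ' true n))
      (Sy (Sum.elim g g') w) (Sy (Sum.elim g g') w) Z =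
    ∑ i ∈ F₁, (√(G.ρ (G.sh i) : ℝ))⁻¹ * (if G.ty i = true then 0 else
        -(G.r (G.sh i) * G.P (G.sh i) w ^ 2)) * pair (g i) Z +
      ∑ j ∈ F₂, G.vf w (Sum.inr j) * pair (g' j) Z := by
  classical
  obtain ⟨K₁, hK₁⟩ := sub_UU hS F₁
  obtain ⟨K₂, hK₂⟩ := sub_UU hS' F₂
  obtain ⟨K, hK⟩ : ∃ K, K = max K₁ K₂ := ⟨_, rfl⟩
  have hUK : ∀ {A : Type} {sh : A → ℕ} {ty : A → Bool} {m : ℕ → ℕ} (hs : Shl sh ty m) (a : ℕ),
      a ≤ K → UU hs a ⊆ UU hs K := by
    intro A sh ty m hs a ha i hi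
    have h1 := mem_UU hs a i hi
    unfold UU
    rw [Finset.mem_biUnion]
    exact ⟨sh i, Finset.mem_range.2 (by omega), (mem_SS hs _ _).2 rfl⟩
  have hK1 : F₁ ⊆ UU hS K := hK₁.trans (hUK hS K₁ (by omega))
  have hK2 : F₂ ⊆ UU hS' K := hK₂.trans (hUK hS' K₂ (by omega))
  set γ : G.I → ℝ := fun i => pair (g i) Z with hg
  set γ' : G.J → ℝ := fun i => pair (g' i) Z with hg'
  have hg0 : ∀ i, i ∉ F₁ → γ i = 0 := by
    intro i hi
    refine h.pair_g_zero fun k hk => ?_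
    by_contra h2
    exact hi (hF₁ i ⟨k, hk, h2⟩)
  have hg0' : ∀ i, i ∉ F₂ → γ' i = 0 := by
    intro i hi
    refine h'.pair_g_zero fun k hk => ?_
    by_contra h2
    exact hi (hF₂ i ⟨k, hk, h2⟩)
  have hPQ : ∀ b n, pair Z (Sy g (fv G.sh G.ty G.ρ b n)) = am G.sh G.ty G.ρ b n γ := by
    intro b n
    rw [hg, am_pair h hS hZf, Pool.Agent.K1H30.OP2.pair_comm]
  have hPQ' : ∀ b n, pair Z (Sy g' (fv G.sh' G.ty' G.ρ' b n)) = am G.sh' G.ty' G.ρ' b n γ' := by
    intro b n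
    rw [hg', am_pair h' hS' hZf, Pool.Agent.K1H30.OP2.pair_comm]
  have hz : ∀ b n, K ≤ n → am G.sh G.ty G.ρ b n γ = 0 := by
    intro b n hn
    rw [am_sum hS]
    refine Finset.sum_eq_zero fun i hi => ?_
    have h2 : i ∉ F₁ := by
      intro h3
      have h4 := mem_UU hS K i (hK1 h3)
      rw [mem_SF] at hi
      omega
    rw [hg0 i h2, mul_zero]
  have hz' : ∀ b n, K ≤ n → am G.sh' G.ty' G.ρ' b n γ' = 0 := by
    intro b n hn
    rw [am_sum hS']
    refine Finset.sum_eq_zero fun i hi => ?_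
    have h2 : i ∉ F₂ := by
      intro h3
      have h4 := mem_UU hS' K i (hK2 h3)
      rw [mem_SF] at hi
      omega
    rw [hg0' i h2, mul_zero]
  have hP : ∀ n, pair (Sy (Sum.elim g g') w) (Sy g' (fv G.sh' G.ty' G.ρ' true n)) = G.P n w := by
    intro n
    rw [pairR h h' hd, am_Sy h' hS']
    rfl
  have hZn : ∀ n, pair (Sy (Sum.elim g g') w) (Sy g (fv G.sh G.ty G.ρ false n)) = G.Z n w := by
    intro n
    rw [pairL h h' hd, am_Sy h hS]
    rfl
  have e1 : bR G.r (fun n => Sy g (fv G.sh G.ty G.ρ false n))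
      (fun n => Sy g' (fv G.sh' G.ty' G.ρ' true n))
      (Sy (Sum.elim g g') w) (Sy (Sum.elim g g') w) Z =
      ∑ n ∈ Finset.range K, G.r n * (
        G.P n w * (G.Z n w * am G.sh' G.ty' G.ρ' true n γ' -
          G.P n w * am G.sh G.ty G.ρ false n γ)
        + G.P (n + 1) w * (G.P (n + 1) w * am G.sh' G.ty' G.ρ' true n γ' -
          G.P n w * am G.sh' G.ty' G.ρ' true (n + 1) γ')) := by
    unfold bR
    simp only [hPQ, hPQ', hP, hZn]
    refine tsum_eq_sum fun n hn => ?_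
    rw [Finset.mem_range, not_lt] at hn
    rw [hz' true n hn, hz false n hn, hz' true (n + 1) (by omega)]
    ring
  have e2 : ∑ i ∈ F₁, (√(G.ρ (G.sh i) : ℝ))⁻¹ * (if G.ty i = true then 0 else
        -(G.r (G.sh i) * G.P (G.sh i) w ^ 2)) * γ i =
      ∑ n ∈ Finset.range K, -(G.r n * G.P n w ^ 2) * am G.sh G.ty G.ρ false n γ := by
    rw [Finset.sum_subset hK1 (fun i _ hi => by rw [hg0 i hi, mul_zero]), sum_UU]
    refine Finset.sum_congr rfl fun n _ => ?_
    rw [sum_SS, am_eq hS, Finset.mul_sum, Finset.mul_sum]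
    have e3 : ∑ i ∈ SF hS true n, (√(G.ρ (G.sh i) : ℝ))⁻¹ * (if G.ty i = true then 0 else
        -(G.r (G.sh i) * G.P (G.sh i) w ^ 2)) * γ i = 0 := by
      refine Finset.sum_eq_zero fun i hi => ?_
      rw [mem_SF] at hi
      rw [if_pos hi.2]
      ring
    rw [e3, zero_add]
    refine Finset.sum_congr rfl fun i hi => ?_
    rw [mem_SF] at hi
    rw [hi.1, hi.2, if_neg (by decide)]
    ring
  have e4 : ∑ j ∈ F₂, G.vf w (Sum.inr j) * γ' j =
      ∑ n ∈ Finset.range K, (G.r n * (G.P n w * G.Z n w + G.P (n + 1) w ^ 2)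
        - (if n = 0 then 0 else G.r (n - 1) * (G.P n w * G.P (n - 1) w))) *
          am G.sh' G.ty' G.ρ' true n γ' := by
    rw [Finset.sum_subset hK2 (fun i _ hi => by rw [hg0' i hi, mul_zero]), sum_UU]
    refine Finset.sum_congr rfl fun n _ => ?_
    rw [sum_SS, am_eq hS', Finset.mul_sum, Finset.mul_sum]
    have e3 : ∑ i ∈ SF hS' false n, G.vf w (Sum.inr i) * γ' i = 0 := by
      refine Finset.sum_eq_zero fun i hi => ?_
      rw [mem_SF] at hi
      unfold GS.vf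
      simp only
      rw [hi.2, if_neg (by decide)]
      ring
    rw [e3, add_zero]
    refine Finset.sum_congr rfl fun i hi => ?_
    rw [mem_SF] at hi
    unfold GS.vf
    simp only
    rw [hi.1, hi.2, if_pos rfl]
    ring
  show _ = ∑ i ∈ F₁, (√(G.ρ (G.sh i) : ℝ))⁻¹ * (if G.ty i = true then 0 else
        -(G.r (G.sh i) * G.P (G.sh i) w ^ 2)) * γ i + ∑ j ∈ F₂, G.vf w (Sum.inr j) * γ' j
  rw [e1, e2, e4]
  -- telescoping
  set F : ℕ → ℝ := fun n => (if n = 0 then 0 else G.r (n - 1) * (G.P n w * G.P (n - 1) w)) *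
    am G.sh' G.ty' G.ρ' true n γ' with hF
  have e5 : ∑ n ∈ Finset.range K, (F n - F (n + 1)) = 0 := by
    rw [Finset.sum_range_sub']
    simp only [hF]
    rw [hz' true K le_rfl]
    simp
  rw [← add_zero (∑ n ∈ Finset.range K, -(G.r n * G.P n w ^ 2) * am G.sh G.ty G.ρ false n γ +
    ∑ n ∈ Finset.range K, (G.r n * (G.P n w * G.Z n w + G.P (n + 1) w ^ 2)
        - (if n = 0 then 0 else G.r (n - 1) * (G.P n w * G.P (n - 1) w))) *
          am G.sh' G.ty' G.ρ' true n γ')]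
  refine Eq.trans ?_ (congrArg (fun u => (∑ n ∈ Finset.range K, -(G.r n * G.P n w ^ 2) *
    am G.sh G.ty G.ρ false n γ +
    ∑ n ∈ Finset.range K, (G.r n * (G.P n w * G.Z n w + G.P (n + 1) w ^ 2)
        - (if n = 0 then 0 else G.r (n - 1) * (G.P n w * G.P (n - 1) w))) *
          am G.sh' G.ty' G.ρ' true n γ') + u) e5)
  rw [← Finset.sum_add_distrib, ← Finset.sum_add_distrib]
  refine Finset.sum_congr rfl fun n _ => ?_
  simp only [hF, Nat.add_eq_zero_iff, one_ne_zero, and_false, if_false, Nat.add_sub_cancel]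
  ring

/-- The nonlinear term, in terms of the modes. -/
theorem form_Sy (h : Md g S R) (h' : Md g' S' R') (hd : ∀ i j, Disjoint (S i) (S' j))
    (hS : Shl G.sh G.ty G.ρ) (hS' : Shl G.sh' G.ty' G.ρ') (hc : ∀ n, G.c n = c₀ * lam ^ n)
    (w : G.I ⊕ G.J → ℝ)
    {Z : Fam} (hZf : {k | Z k ≠ 0}.Finite) (F₁ : Finset G.I) (F₂ : Finset G.J)
    (hF₁ : ∀ i, (∃ k ∈ S i, Z k ≠ 0) → i ∈ F₁) (hF₂ : ∀ i, (∃ k ∈ S' i, Z k ≠ 0) → i ∈ F₂) :
    bil (Sy (Sum.elim g g') w) (Sy (Sum.elim g g') w) Z +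
      bN G lam c₀ g g' (Sy (Sum.elim g g') w) (Sy (Sum.elim g g') w) Z =
    ∑ i ∈ F₁, G.vf w (Sum.inl i) * pair (g i) Z +
      ∑ j ∈ F₂, G.vf w (Sum.inr j) * pair (g' j) Z := by
  have hs := md_sum h h' hd
  unfold bN
  rw [hs.bg_Sy, bR_Sy h h' hd hS hS' w hZf F₁ F₂ hF₁ hF₂]
  have e1 : bT lam G.ε c₀ (fun n => Sy g (fv G.sh G.ty G.ρ true n))
      (fun n => Sy g (fv G.sh G.ty G.ρ false n))
      (Sy (Sum.elim g g') w) (Sy (Sum.elim g g') w) Z =
      bT lam G.ε c₀ (fun n => Sy g (fv G.sh G.ty G.ρ true n))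
      (fun n => Sy g (fv G.sh G.ty G.ρ false n))
      (Sy g fun i => w (Sum.inl i)) (Sy g fun i => w (Sum.inl i)) Z := by
    unfold bT
    simp only [pairL h h' hd]
  rw [e1, bT_Sy h hS _ F₁ hZf hF₁]
  have e2 : ∀ a b c d : ℝ, a + (-a + b + (c + d)) = (b + c) + d := fun a b c d => by ring
  rw [e2, ← Finset.sum_add_distrib]
  congr 1
  refine Finset.sum_congr rfl fun i _ => ?_
  rw [← add_mul, bl_ker hS, ← mul_add]
  congr 2
  unfold bb
  have hY : ∀ n, am G.sh G.ty G.ρ true n (fun i => w (Sum.inl i)) = G.Y n w := fun _ => rfl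
  have hZ : ∀ n, am G.sh G.ty G.ρ false n (fun i => w (Sum.inl i)) = G.Z n w := fun _ => rfl
  simp only [hY, hZ, hc]
  rcases hb : G.ty i with _ | _
  · simp only [Bool.false_eq_true, if_false]
    ring
  · simp only [if_true]
    by_cases h0 : G.sh i = 0
    · simp only [h0, if_true]
      ring
    · simp only [h0, if_false]
      ring

/-- The vector field depends on finitely many shells only. -/
theorem vf_congr (hS : Shl G.sh G.ty G.ρ) (hS' : Shl G.sh' G.ty' G.ρ') {w v : G.I ⊕ G.J → ℝ}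
    {M : ℕ} (hw : ∀ i, G.s i ≤ M + 1 → w i = v i) (i : G.I ⊕ G.J) (hi : G.s i ≤ M) :
    G.vf w i = G.vf v i := by
  have hY : ∀ n ≤ M + 1, G.Y n w = G.Y n v := by
    intro n hn
    show am G.sh G.ty G.ρ true n _ = am G.sh G.ty G.ρ true n _
    rw [am_sum hS, am_sum hS]
    refine Finset.sum_congr rfl fun i hi => ?_
    rw [mem_SF] at hi
    rw [hw (Sum.inl i) (by show G.sh i ≤ M + 1; omega)]
  have hZ : ∀ n ≤ M + 1, G.Z n w = G.Z n v := by
    intro n hn
    show am G.sh G.ty G.ρ false n _ = am G.sh G.ty G.ρ false n _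
    rw [am_sum hS, am_sum hS]
    refine Finset.sum_congr rfl fun i hi => ?_
    rw [mem_SF] at hi
    rw [hw (Sum.inl i) (by show G.sh i ≤ M + 1; omega)]
  have hP : ∀ n ≤ M + 1, G.P n w = G.P n v := by
    intro n hn
    show am G.sh' G.ty' G.ρ' true n _ = am G.sh' G.ty' G.ρ' true n _
    rw [am_sum hS', am_sum hS']
    refine Finset.sum_congr rfl fun i hi => ?_
    rw [mem_SF] at hi
    rw [hw (Sum.inr i) (by show G.sh' i ≤ M + 1; omega)]
  rcases i with i | j
  · have h1 : G.sh i ≤ M := hi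
    unfold GS.vf
    simp only
    rw [hY (G.sh i) (by omega), hZ (G.sh i) (by omega), hP (G.sh i) (by omega),
      hZ (G.sh i - 1) (by omega), hY (G.sh i + 1) (by omega)]
  · have h1 : G.sh' j ≤ M := hi
    unfold GS.vf
    simp only
    rw [hP (G.sh' j) (by omega), hZ (G.sh' j) (by omega), hP (G.sh' j - 1) (by omega),
      hP (G.sh' j + 1) (by omega)]

end

theorem t_WEAK : S_WEAK := by
  classical
  intro G g S R N g' S' R' N' s N₁ δ c₀ lam X D x _ _ _ hM hD0 hD hD' hx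
  have h := md_of hM.m1
  have h' := md_of hM.m2
  have hd := hM.dis
  have hS := hM.m1.shl
  have hS' := hM.m2.shl
  have hs := md_sum h h' hd
  have hDs : ∀ i, ∀ k ∈ Sum.elim S S' i, D k = G.D i := by
    rintro (i | j) k hk
    · exact hD i k hk
    · exact hD' j k hk
  have hG0 : ∀ i, 0 ≤ G.D i := by
    rintro (i | j)
    · exact G.d0 i
    · exact G.d0' j
  have hen : ∀ w : G.I ⊕ G.J → ℝ, ∑' k, ‖Sy (Sum.elim g g') w k‖ₑ ^ 2 = G.en w := by
    intro w
    have h1 := wsum hs w (fun _ => 1) (fun _ => 1) (fun _ _ _ => rfl)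
    simp only [one_mul] at h1
    exact h1
  have hds : ∀ w : G.I ⊕ G.J → ℝ,
      ∑' k, ENNReal.ofReal (D k) * ‖Sy (Sum.elim g g') w k‖ₑ ^ 2 = G.ds w := by
    intro w
    rw [wsum hs w (fun k => ENNReal.ofReal (D k)) (fun i => ENNReal.ofReal (G.D i))
      (fun i k hk => by rw [hDs i k hk])]
    unfold GS.ds
    refine tsum_congr fun i => ?_
    rw [ENNReal.ofReal_mul (hG0 i)]
  have hEI : ∀ s, G.EI x s → FEI D (fun t => Sy (Sum.elim g g') (x t)) s := by
    intro s h1 t ht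
    simp only [hen, hds]
    exact h1 t ht
  refine ⟨fun t _ => hs.Sy_ot _, ?_, ?_, hEI 0 hx.e0, hx.es.mono hEI⟩
  · rw [hen]
    exact hx.fin
  · intro Z hZ hZf t ht
    have hf₁ := h.fin_touch hZf
    have hf₂ := h'.fin_touch hZf
    obtain ⟨F₁, hF₁d⟩ : ∃ F, F = hf₁.toFinset := ⟨_, rfl⟩
    obtain ⟨F₂, hF₂d⟩ : ∃ F, F = hf₂.toFinset := ⟨_, rfl⟩
    have hF₁ : ∀ i, (∃ k ∈ S i, Z k ≠ 0) → i ∈ F₁ := fun i hi => by
      rw [hF₁d, Set.Finite.mem_toFinset]; exact hi
    have hF₂ : ∀ i, (∃ k ∈ S' i, Z k ≠ 0) → i ∈ F₂ := fun i hi => by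
      rw [hF₂d, Set.Finite.mem_toFinset]; exact hi
    have hF : ∀ i, (∃ k ∈ Sum.elim S S' i, Z k ≠ 0) → i ∈ F₁.disjSum F₂ := by
      rintro (i | j) hi
      · rw [Finset.inl_mem_disjSum]; exact hF₁ i hi
      · rw [Finset.inr_mem_disjSum]; exact hF₂ j hi
    refine ⟨∑ i ∈ F₁.disjSum F₂, G.vf (x t) i * pair (Sum.elim g g' i) Z, ?_, ?_⟩
    · -- the truncated forms are eventually constant
      obtain ⟨M, hMd⟩ : ∃ M, M = max (F₁.sup G.sh) (F₂.sup G.sh') := ⟨_, rfl⟩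
      have hm : Monotone N := monotone_nat_of_le_succ hM.m1.mono
      have hm' : Monotone N' := monotone_nat_of_le_succ hM.m2.mono
      obtain ⟨K₀, hK₀⟩ := exists_nat_ge (max (2 * N (M + 1)) (2 * N' (M + 1)))
      refine tendsto_const_nhds.congr' ?_
      filter_upwards [eventually_ge_atTop K₀] with K hK
      have hKR : max (2 * N (M + 1)) (2 * N' (M + 1)) ≤ (K : ℝ) :=
        hK₀.trans (by exact_mod_cast hK)
      rw [trn_Sy hs, form_Sy h h' hd hS hS' hM.cc _ hZf F₁ F₂ hF₁ hF₂, Finset.sum_disjSum]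
      have hw : ∀ i, G.s i ≤ M + 1 →
          (if Sum.elim R R' i ≤ (K : ℝ) then x t i else 0) = x t i := by
        rintro (i | j) hi
        · have h1 : G.sh i ≤ M + 1 := hi
          rw [if_pos]
          have h2 := (hM.m1.size i).2
          have h3 := hm h1
          have h4 := (le_max_left _ _).trans hKR
          show R i ≤ K
          linarith
        · have h1 : G.sh' j ≤ M + 1 := hi
          rw [if_pos]
          have h2 := (hM.m2.size j).2
          have h3 := hm' h1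
          have h4 := (le_max_right _ _).trans hKR
          show R' j ≤ K
          linarith
      congr 1
      · refine Finset.sum_congr rfl fun i hi => ?_
        have h1 : G.sh i ≤ M := by
          rw [hMd]; exact (Finset.le_sup hi).trans (le_max_left _ _)
        rw [vf_congr hS hS' hw (Sum.inl i) h1]
        rfl
      · refine Finset.sum_congr rfl fun i hi => ?_
        have h1 : G.sh' i ≤ M := by
          rw [hMd]; exact (Finset.le_sup hi).trans (le_max_right _ _)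
        rw [vf_congr hS hS' hw (Sum.inr i) h1]
        rfl
    · have e1 : (fun τ => pair (Sy (Sum.elim g g') (x τ)) Z) =
          fun τ => ∑ i ∈ F₁.disjSum F₂, x τ i * pair (Sum.elim g g' i) Z := by
        funext τ
        exact hs.pair_Sy _ hZf _ hF
      rw [e1]
      have e2 := HasDerivWithinAt.fun_sum (u := F₁.disjSum F₂)
        (fun i _ => (hx.ode i t ht).mul_const (pair (Sum.elim g g' i) Z))
      refine e2.congr_deriv ?_
      rw [lpD_Sy hs hDs _ _ hZf hF, ← Finset.sum_neg_distrib, ← Finset.sum_add_distrib]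
      refine Finset.sum_congr rfl fun i _ => ?_
      ring

end Pool.Agent.K1H45.NU
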