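import Pool.Agent.K1H45.NU.Wsu2

/-!
Weak-strong uniqueness (`S_WSU`).
-/

open Set Filter Topology MeasureTheory
open scoped ENNReal

set_option autoImplicit false

namespace Pool.Agent.K1H45.NU

open Pool.Agent.Y5 Pool.Agent.Y5.D Pool.Agent.Y5.E Pool.Agent.K1H54.LO Pool.Agent.K1H54.L2
  Pool.Agent.K1H54.NU
open Pool.Agent.Y301.G (wt wt_sum Bd)
open Pool.Agent.K1H17.UN (tst tst_ot tst_fin pr pr_orth pair_tst_pr ee inner_eq inner_ee ot_sub
  rap_sub fin_rap A1_one l2_nonneg A1_le l2_le wt_nonneg)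
open Pool.Agent.K1H30.OP (sq0 sum1)

/-- the limit of the estimate of the nonlinear terms -/
theorem Tri.est_lim {C : ℝ} {n : Fam → Fam → Fam → ℝ} (h : Tri C n) {V U : Fam} (hV : OT V)
    (sV : Summable fun k => ‖V k‖ ^ 2) (hU : OT U) (rU : Rap U) {M : ℝ} (hM : Bd M U) {e₀ : ℝ}
    (he : ∑' k, ‖V k‖ ^ 2 ≤ e₀) (J : ℕ) {L : ℝ}
    (hL : Tendsto (fun K : ℕ => n (trn K V) (trn K V) (trn J U)) atTop (𝓝 L)) :
    |L + n U U (trn J V)| ≤
      C * (M * (∑' k, wt k) * ∑' k, ‖V k - U k‖ ^ 2 + e₀ * (M * tl J wt) +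
        M * (1 + ∑' k, wt k) * (M * ∑' k, wt k) * √(tl J (fun k => ‖V k‖ ^ 2))) := by
  have sU := sq0 rU
  have h1 : Tendsto (fun K : ℕ => |n (trn K V) (trn K V) (trn J U) + n U U (trn J V)|) atTop
      (𝓝 |L + n U U (trn J V)|) := (hL.add_const _).abs
  have h2 : Tendsto (fun K : ℕ =>
      C * (A1 1 U * (∑' k, ‖V k - U k‖ ^ 2 + tl K (fun k => ‖U k‖ ^ 2)) +
        (∑' k, ‖V k‖ ^ 2) * tl J (fun k => ‖vec k‖ * ‖U k‖) +
        l2 U * A1 1 U * √(tl J (fun k => ‖V k‖ ^ 2)))) atTop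
      (𝓝 (C * (A1 1 U * (∑' k, ‖V k - U k‖ ^ 2 + 0) +
        (∑' k, ‖V k‖ ^ 2) * tl J (fun k => ‖vec k‖ * ‖U k‖) +
        l2 U * A1 1 U * √(tl J (fun k => ‖V k‖ ^ 2))))) := by
    refine Tendsto.const_mul _ (Tendsto.add_const _ (Tendsto.add_const _ (Tendsto.const_mul _ ?_)))
    exact tendsto_const_nhds.add (tl_tendsto sU fun _ => by positivity)
  have h3 : |L + n U U (trn J V)| ≤ C * (A1 1 U * (∑' k, ‖V k - U k‖ ^ 2 + 0) +
        (∑' k, ‖V k‖ ^ 2) * tl J (fun k => ‖vec k‖ * ‖U k‖) +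
        l2 U * A1 1 U * √(tl J (fun k => ‖V k‖ ^ 2))) := by
    refine le_of_tendsto_of_tendsto h1 h2 ?_
    filter_upwards [eventually_ge_atTop J] with K hK
    exact h.est hV sV hU rU hK
  refine h3.trans (mul_le_mul_of_nonneg_left ?_ h.C0)
  have hA := A1_le hM
  have hA0 := Pool.Agent.K1H30.OP.A1_nonneg 1 U
  have hl := l2_le hM
  have hl0 := l2_nonneg U
  have hw := wt_nonneg
  have hM0 := hM.nonneg
  have ht : tl J (fun k => ‖vec k‖ * ‖U k‖) ≤ M * tl J wt := by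
    unfold tl
    rw [← tsum_mul_left]
    refine (tl_summable (sum1 rU) (fun _ => by positivity) J).tsum_le_tsum (fun k => ?_)
      ((tl_summable wt_sum (fun k => by unfold wt; positivity) J).mul_left M)
    by_cases hk : k ∈ Fb J
    · rw [if_pos hk, if_pos hk, mul_zero]
    · rw [if_neg hk, if_neg hk]
      exact hM.pt k
  have ht0 : 0 ≤ tl J (fun k => ‖vec k‖ * ‖U k‖) := tl_nonneg (fun _ => by positivity) J
  have hE0 : 0 ≤ ∑' k, ‖V k - U k‖ ^ 2 := tsum_nonneg fun _ => by positivity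
  have he0 : 0 ≤ ∑' k, ‖V k‖ ^ 2 := tsum_nonneg fun _ => by positivity
  rw [add_zero]
  refine add_le_add (add_le_add ?_ ?_) ?_
  · exact mul_le_mul_of_nonneg_right hA hE0
  · exact mul_le_mul he ht ht0 (he0.trans he)
  · refine mul_le_mul_of_nonneg_right ?_ (Real.sqrt_nonneg _)
    exact mul_le_mul hl hA hA0 (by positivity)

lemma pair_trn_tendsto {A B : Fam} (sA : Summable fun k => ‖A k‖ ^ 2)
    (sB : Summable fun k => ‖B k‖ ^ 2) :
    Tendsto (fun J : ℕ => pair A (trn J B)) atTop (𝓝 (pair A B)) ∧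
      ∑' k, ‖A k - B k‖ ^ 2 = ∑' k, ‖A k‖ ^ 2 + ∑' k, ‖B k‖ ^ 2 - 2 * pair A B := by
  have h1 : Summable fun k => (inner ℝ (A k) (B k) : ℝ) := by
    refine Summable.of_norm_bounded (sA.add sB) fun k => ?_
    refine (norm_inner_le_norm _ _).trans ?_
    nlinarith [sq_nonneg (‖A k‖ - ‖B k‖), sq_nonneg (‖A k‖), sq_nonneg ‖B k‖]
  refine ⟨?_, ?_⟩
  · simp only [pair_trn]
    have h2 : Tendsto Fb atTop atTop := by
      refine tendsto_atTop_finset_of_monotone (fun a b hab k hk => ?_) fun k => (ev_Fb k).exists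
      exact mem_Fb.2 ((mem_Fb.1 hk).trans (by exact_mod_cast hab))
    exact h1.hasSum.comp h2
  · unfold pair
    rw [← tsum_mul_left, ← sA.tsum_add sB, ← (sA.add sB).tsum_sub (h1.mul_left 2)]
    refine tsum_congr fun k => ?_
    rw [norm_sub_sq_real]
    ring

/-- **WSU** -/
theorem t_WSU (hG : S_GRW) : S_WSU := by
  intro s δ C T D Q β U V hSym hP hU hV h0 t₀ ht₀
  obtain ⟨C₁, hC₁⟩ := hSym.growth
  have hD := hSym.nonneg
  obtain ⟨T', hT0, hT'⟩ := exists_between ht₀.2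
  have h0T' : 0 < T' := lt_of_le_of_lt ht₀.1 hT0
  obtain ⟨M, hM⟩ := exB hU hT'
  have tri := tri_of hP
  obtain ⟨n, hn⟩ : ∃ n : Fam → Fam → Fam → ℝ, n = fun A B Z => bil A B Z + β A B Z := ⟨_, rfl⟩
  rw [← hn] at tri
  obtain ⟨Cn, hCn⟩ : ∃ c, c = 2 * Real.pi + |C| := ⟨_, rfl⟩
  rw [← hCn] at tri
  have hCn0 : 0 ≤ Cn := tri.C0
  have hIco : ∀ t ∈ Icc 0 T', t ∈ Ico 0 T := fun t ht => ⟨ht.1, lt_of_le_of_lt ht.2 hT'⟩
  have hM0 : 0 ≤ M := (hM 0 ⟨le_rfl, h0T'.le⟩).nonneg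
  have hw := wt_nonneg
  -- the limits of the nonlinear terms
  have hex : ∀ (t : ℝ) (Z : Fam), ∃ L : ℝ, OT Z → {k | Z k ≠ 0}.Finite → 0 ≤ t →
      Tendsto (fun K : ℕ => n (trn K (V t)) (trn K (V t)) Z) atTop (𝓝 L) ∧
      HasDerivWithinAt (fun τ => pair (V τ) Z) (-lpD D (V t) Z + L) (Ici 0) t := by
    intro t Z
    by_cases h : OT Z ∧ {k | Z k ≠ 0}.Finite ∧ 0 ≤ t
    · obtain ⟨L, hL⟩ := hV.eqn Z h.1 h.2.1 t h.2.2
      exact ⟨L, fun _ _ _ => by rw [hn]; exact hL⟩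
    · exact ⟨0, fun a b c => absurd ⟨a, b, c⟩ h⟩
  choose LV hLV using hex
  -- continuity of the coefficients
  have cV : ∀ k, ContinuousOn (fun τ => V τ k) (Ici 0) := fun k =>
    cont_coef (fun τ hτ => hV.ot τ hτ) (fun Z hZ hZf τ hτ =>
      (hLV τ Z hZ hZf hτ).2.continuousWithinAt) k
  have cU : ∀ k, ContinuousOn (fun τ => U τ k) (Ico 0 T) := fun k =>
    cont_coef (fun τ hτ => hU.ot τ hτ) (fun Z hZ hZf τ hτ =>
      (hU.eqn Z hZ hZf τ hτ).continuousWithinAt) k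
  -- energies
  obtain ⟨e₀, he₀⟩ : ∃ e, e = ∑' k, ‖V 0 k‖ ^ 2 := ⟨_, rfl⟩
  have he0 : 0 ≤ e₀ := by rw [he₀]; exact tsum_nonneg fun _ => by positivity
  have EV : ∀ t, 0 ≤ t → Summable (fun k => ‖V t k‖ ^ 2) ∧ ∀ J : ℕ, ∑' k, ‖V t k‖ ^ 2 +
      2 * ∫ τ in (0 : ℝ)..t, ∑ k ∈ Fb J, D k * ‖V τ k‖ ^ 2 ≤ e₀ := fun t ht => by
    rw [he₀]; exact energyV hD hV.fin hV.e0 cV ht
  have hVe : ∀ t, 0 ≤ t → ∑' k, ‖V t k‖ ^ 2 ≤ e₀ := fun t ht => by
    have h1 := (EV t ht).2 0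
    have h2 : 0 ≤ ∫ τ in (0 : ℝ)..t, ∑ k ∈ Fb 0, D k * ‖V τ k‖ ^ 2 :=
      intervalIntegral.integral_nonneg ht fun τ _ =>
        Finset.sum_nonneg fun k _ => mul_nonneg (hD k) (sq_nonneg _)
    linarith
  have EU : ∀ t ∈ Icc 0 T', ∀ J : ℕ, ∑' k, ‖U t k‖ ^ 2 +
      2 * ∫ τ in (0 : ℝ)..t, ∑ k ∈ Fb J, D k * ‖U τ k‖ ^ 2 ≤ ∑' k, ‖U 0 k‖ ^ 2 :=
    fun t ht J => energyU hD hC₁ hP hU cU (hIco t ht) J
  have sU : ∀ t ∈ Icc 0 T', Summable (fun k => ‖U t k‖ ^ 2) := fun t ht => (hM t ht).sq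
  -- the difference
  obtain ⟨f, hf⟩ : ∃ f : ℝ → ℝ, ∀ t, f t = ∑' k, ‖V t k - U t k‖ ^ 2 := ⟨_, fun _ => rfl⟩
  obtain ⟨a₁, ha₁⟩ : ∃ a, a = M * ∑' k, wt k := ⟨_, rfl⟩
  obtain ⟨b₁, hb₁⟩ : ∃ b, b = M * (1 + ∑' k, wt k) := ⟨_, rfl⟩
  have ha0 : 0 ≤ a₁ := by rw [ha₁]; positivity
  have hb0 : 0 ≤ b₁ := by rw [hb₁]; positivity
  have hf0 : ∀ t, 0 ≤ f t := fun t => by rw [hf]; exact tsum_nonneg fun _ => by positivity
  have hfe : ∀ t ∈ Icc 0 T', f t = ∑' k, ‖V t k‖ ^ 2 + ∑' k, ‖U t k‖ ^ 2 -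
      2 * pair (V t) (U t) := fun t ht => by
    rw [hf]; exact (pair_trn_tendsto (EV t ht.1).1 (sU t ht)).2
  have hfM : ∀ t ∈ Icc 0 T', f t ≤ 2 * e₀ + 2 * b₁ ^ 2 := by
    intro t ht
    have h1 : ∀ k, ‖V t k - U t k‖ ^ 2 ≤ 2 * ‖V t k‖ ^ 2 + 2 * ‖U t k‖ ^ 2 := fun k => by
      have h3 := norm_sub_le (V t k) (U t k)
      have h4 : ‖V t k - U t k‖ ^ 2 ≤ (‖V t k‖ + ‖U t k‖) ^ 2 :=
        pow_le_pow_left₀ (norm_nonneg _) h3 2
      nlinarith [sq_nonneg (‖V t k‖ - ‖U t k‖)]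
    have s1 := (EV t ht.1).1
    have s2 := sU t ht
    have s3 := (s1.mul_left 2).add (s2.mul_left 2)
    have h5 := (Summable.of_nonneg_of_le (fun _ => by positivity) h1 s3).tsum_le_tsum h1 s3
    rw [(s1.mul_left 2).tsum_add (s2.mul_left 2), tsum_mul_left, tsum_mul_left] at h5
    have h6 := hVe t ht.1
    have h7 : ∑' k, ‖U t k‖ ^ 2 ≤ b₁ ^ 2 := by
      rw [← l2_sq, hb₁]
      exact pow_le_pow_left₀ (l2_nonneg _) (l2_le (hM t ht)) 2
    rw [hf]
    linarith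
  -- measurability
  have cVU : ∀ k, ContinuousOn (fun τ => ‖V τ k - U τ k‖ ^ 2) (Icc 0 T') := fun k =>
    (((cV k).mono Icc_subset_Ici_self).sub ((cU k).mono hIco)).norm.pow 2
  have mf : AEStronglyMeasurable f (volume.restrict (Icc 0 T')) := by
    have h1 := meas_sum (A := fun τ k => ‖V τ k - U τ k‖ ^ 2) measurableSet_Icc cVU
      fun _ _ => by positivity
    have h2 : f = fun τ => ∑' k, ‖V τ k - U τ k‖ ^ 2 := funext hf
    rw [h2]
    exact h1
  obtain ⟨w, hwd⟩ : ∃ w : ℕ → ℝ → ℝ, ∀ J τ, w J τ = √(tl J (fun k => ‖V τ k‖ ^ 2)) :=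
    ⟨_, fun _ _ => rfl⟩
  have mw : ∀ J, AEStronglyMeasurable (w J) (volume.restrict (Icc 0 T')) := by
    intro J
    have h1 := meas_sum (A := fun τ k => if k ∈ Fb J then 0 else ‖V τ k‖ ^ 2)
      (S := Icc 0 T') measurableSet_Icc (fun k => by
        by_cases hk : k ∈ Fb J
        · simp only [if_pos hk]
          exact continuousOn_const
        · simp only [if_neg hk]
          exact ((cV k).mono Icc_subset_Ici_self).norm.pow 2) (fun τ k => by
        split_ifs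
        · exact le_rfl
        · positivity)
    have h2 : w J = fun τ => √(∑' k, if k ∈ Fb J then 0 else ‖V τ k‖ ^ 2) :=
      funext fun τ => hwd J τ
    rw [h2]
    exact Real.continuous_sqrt.comp_aestronglyMeasurable h1
  have hwM : ∀ J, ∀ t ∈ Icc 0 T', 0 ≤ w J t ∧ w J t ≤ √e₀ := fun J t ht => by
    rw [hwd]
    refine ⟨Real.sqrt_nonneg _, Real.sqrt_le_sqrt ?_⟩
    exact (tl_le (EV t ht.1).1 (fun _ => by positivity) J).trans (hVe t ht.1)
  -- the bound of the derivative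
  obtain ⟨G, hGd⟩ : ∃ G : ℕ → ℝ → ℝ, ∀ J τ, G J τ =
      2 * (Cn * (a₁ * f τ + e₀ * (M * tl J wt) + b₁ * a₁ * w J τ)) := ⟨_, fun _ _ => rfl⟩
  have htw : ∀ J, 0 ≤ tl J wt ∧ tl J wt ≤ ∑' k, wt k := fun J =>
    ⟨tl_nonneg (fun k => by unfold wt; positivity) J,
      tl_le wt_sum (fun k => by unfold wt; positivity) J⟩
  obtain ⟨KG, hKG⟩ : ∃ K, K = 2 * (Cn * (a₁ * (2 * e₀ + 2 * b₁ ^ 2) +
      e₀ * (M * ∑' k, wt k) + b₁ * a₁ * √e₀)) := ⟨_, rfl⟩
  have hGM : ∀ J, ∀ t ∈ Icc 0 T', ‖G J t‖ ≤ KG := by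
    intro J t ht
    obtain ⟨h1, h2⟩ := hwM J t ht
    obtain ⟨h3, h4⟩ := htw J
    have h5 := hfM t ht
    have h6 := hf0 t
    rw [hGd, hKG, Real.norm_of_nonneg (by positivity)]
    gcongr
  have mG : ∀ J, AEStronglyMeasurable (G J) (volume.restrict (Icc 0 T')) := by
    intro J
    have h2 : G J = fun τ => 2 * (Cn * (a₁ * f τ + e₀ * (M * tl J wt) + b₁ * a₁ * w J τ)) :=
      funext fun τ => hGd J τ
    rw [h2]
    exact ((((mf.const_mul a₁).add aestronglyMeasurable_const).add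
      ((mw J).const_mul (b₁ * a₁))).const_mul Cn).const_mul 2
  have iG : ∀ J, IntegrableOn (G J) (Icc 0 T') := fun J =>
    IntegrableOn.of_bound measure_Icc_lt_top (mG J) KG
      ((ae_restrict_iff' measurableSet_Icc).2 (Eventually.of_forall fun t ht => hGM J t ht))
  -- the inequality for every `J`
  have key : ∀ J : ℕ, ∀ t ∈ Icc 0 T', ∑' k, ‖V t k‖ ^ 2 + ∑' k, ‖U t k‖ ^ 2 -
      2 * pair (V t) (trn J (U t)) ≤ ∑' k, ‖V 0 k‖ ^ 2 + ∑' k, ‖U 0 k‖ ^ 2 -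
      2 * pair (V 0) (trn J (U 0)) + ∫ τ in (0 : ℝ)..t, G J τ := by
    intro J t ht
    have hsub : Icc 0 t ⊆ Icc 0 T' := Icc_subset_Icc_right ht.2
    have hder : ∀ x ∈ Ico 0 T, HasDerivWithinAt (fun τ => pair (V τ) (trn J (U τ)))
        ((-lpD D (V x) (trn J (U x)) + LV x (trn J (U x))) +
          (-lpD D (U x) (trn J (V x)) + n (U x) (U x) (trn J (V x)))) (Ico 0 T) x := by
      intro x hx
      refine prodrule (RA := fun Z => -lpD D (V x) Z + LV x Z)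
        (RB := fun Z => -lpD D (U x) Z + n (U x) (U x) Z) J hx (uniqueDiffOn_Ico 0 T x hx)
        (fun τ hτ => hV.ot τ hτ.1) (fun τ hτ => hU.ot τ hτ) ?_ ?_
      · intro Z hZ hZf
        exact (hLV x Z hZ hZf hx.1).2.mono Ico_subset_Ici_self
      · intro Z hZ hZf
        refine (hU.eqn Z hZ hZf x hx).congr_deriv ?_
        rw [hn]
        ring
    have hcA : ContinuousOn (fun τ => ∑ k ∈ Fb J, D k * ‖V τ k‖ ^ 2) (Icc 0 t) :=
      continuousOn_finsetSum _ fun k _ =>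
        continuousOn_const.mul (((cV k).mono Icc_subset_Ici_self).norm.pow 2)
    have hcB : ContinuousOn (fun τ => ∑ k ∈ Fb J, D k * ‖U τ k‖ ^ 2) (Icc 0 t) :=
      continuousOn_finsetSum _ fun k _ => continuousOn_const.mul
        (((cU k).mono fun x hx => hIco x (hsub hx)).norm.pow 2)
    have hGi := (iG J).mono_set hsub
    have h1 := intervalIntegral.sub_le_integral_of_hasDeriv_right_of_le (a := 0) (b := t)
      (g := fun τ => -(2 * pair (V τ) (trn J (U τ))))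
      (g' := fun x => -(2 * ((-lpD D (V x) (trn J (U x)) + LV x (trn J (U x))) +
          (-lpD D (U x) (trn J (V x)) + n (U x) (U x) (trn J (V x))))))
      (φ := fun τ => 2 * (∑ k ∈ Fb J, D k * ‖V τ k‖ ^ 2) +
        2 * (∑ k ∈ Fb J, D k * ‖U τ k‖ ^ 2) + G J τ) ht.1
      (fun x hx => (((hder x (hIco x (hsub hx))).const_mul 2).neg.continuousWithinAt).mono
        fun y hy => hIco y (hsub hy))
      (fun x hx => (((hder x (hIco x (hsub (Ioo_subset_Icc_self hx)))).const_mul 2).neg.hasDerivAt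
        (Ico_mem_nhds hx.1 (hx.2.trans_le (ht.2.trans hT'.le)))).hasDerivWithinAt)
      ((((continuousOn_const.mul hcA).add (continuousOn_const.mul hcB)).integrableOn_Icc).add hGi)
      (fun x hx => by
        have hx' : x ∈ Icc 0 T' := hsub (Ioo_subset_Icc_self hx)
        have hxT := hIco x hx'
        have oU := hU.ot x hxT
        have oV := hV.ot x hx'.1
        have rU := solrap hU hxT
        have e1 := tri.est_lim oV (EV x hx'.1).1 oU rU (hM x hx') (hVe x hx'.1) J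
          (hLV x (trn J (U x)) (trn_ot J oU) (trn_fin J _) hx'.1).1
        rw [← hf, ← ha₁, ← hb₁, ← hwd] at e1
        have e2 := neg_abs_le (LV x (trn J (U x)) + n (U x) (U x) (trn J (V x)))
        have e3 : lpD D (V x) (trn J (U x)) = lpD D (U x) (trn J (V x)) := by
          rw [lpD_trn, lpD_trn]
          exact Finset.sum_congr rfl fun k _ => by rw [real_inner_comm]
        have e4 : 2 * lpD D (V x) (trn J (U x)) ≤ ∑ k ∈ Fb J, D k * ‖V x k‖ ^ 2 +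
            ∑ k ∈ Fb J, D k * ‖U x k‖ ^ 2 := by
          rw [lpD_trn, Finset.mul_sum, ← Finset.sum_add_distrib]
          refine Finset.sum_le_sum fun k _ => ?_
          have e5 := real_inner_le_norm (V x k) (U x k)
          have e6 : 2 * (inner ℝ (V x k) (U x k) : ℝ) ≤ ‖V x k‖ ^ 2 + ‖U x k‖ ^ 2 := by
            nlinarith [sq_nonneg (‖V x k‖ - ‖U x k‖)]
          have e7 := mul_le_mul_of_nonneg_left e6 (hD k)
          linarith
        rw [← e3, hGd]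
        linarith)
    have iA : IntervalIntegrable (fun τ => ∑ k ∈ Fb J, D k * ‖V τ k‖ ^ 2) volume 0 t := by
      rw [intervalIntegrable_iff_integrableOn_Icc_of_le ht.1]
      exact hcA.integrableOn_Icc
    have iB : IntervalIntegrable (fun τ => ∑ k ∈ Fb J, D k * ‖U τ k‖ ^ 2) volume 0 t := by
      rw [intervalIntegrable_iff_integrableOn_Icc_of_le ht.1]
      exact hcB.integrableOn_Icc
    have iG' : IntervalIntegrable (G J) volume 0 t := by
      rw [intervalIntegrable_iff_integrableOn_Icc_of_le ht.1]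
      exact hGi
    rw [intervalIntegral.integral_add ((iA.const_mul 2).add (iB.const_mul 2)) iG',
      intervalIntegral.integral_add (iA.const_mul 2) (iB.const_mul 2),
      intervalIntegral.integral_const_mul, intervalIntegral.integral_const_mul] at h1
    have h2 := (EV t ht.1).2 J
    have h3 := EU t ht J
    rw [he₀] at h2
    linarith
  -- passing to the limit
  have hfint : ∀ t ∈ Icc 0 T', f t ≤ 2 * (Cn * a₁) * ∫ τ in (0 : ℝ)..t, f τ := by
    intro t ht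
    have hsub : Icc 0 t ⊆ Icc 0 T' := Icc_subset_Icc_right ht.2
    have l1 : Tendsto (fun J : ℕ => ∑' k, ‖V t k‖ ^ 2 + ∑' k, ‖U t k‖ ^ 2 -
        2 * pair (V t) (trn J (U t))) atTop (𝓝 (f t)) := by
      rw [hfe t ht]
      exact tendsto_const_nhds.sub
        ((pair_trn_tendsto (EV t ht.1).1 (sU t ht)).1.const_mul 2)
    have h00 : (0 : ℝ) ∈ Icc 0 T' := ⟨le_rfl, h0T'.le⟩
    have l2' : Tendsto (fun J : ℕ => ∑' k, ‖V 0 k‖ ^ 2 + ∑' k, ‖U 0 k‖ ^ 2 -
        2 * pair (V 0) (trn J (U 0))) atTop (𝓝 (f 0)) := by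
      rw [hfe 0 h00]
      exact tendsto_const_nhds.sub
        ((pair_trn_tendsto (EV 0 le_rfl).1 (sU 0 h00)).1.const_mul 2)
    have hf00 : f 0 = 0 := by
      rw [hf, h0]
      simp
    rw [hf00] at l2'
    have l3 : Tendsto (fun J : ℕ => ∫ τ in (0 : ℝ)..t, G J τ) atTop
        (𝓝 (∫ τ in (0 : ℝ)..t, 2 * (Cn * (a₁ * f τ)))) := by
      refine intervalIntegral.tendsto_integral_filter_of_dominated_convergence (fun _ => KG)
        ?_ ?_ ?_ ?_
      · refine Eventually.of_forall fun J => ?_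
        rw [uIoc_of_le ht.1]
        exact (mG J).mono_set (Ioc_subset_Icc_self.trans hsub)
      · refine Eventually.of_forall fun J => Eventually.of_forall fun τ hτ => ?_
        rw [uIoc_of_le ht.1] at hτ
        exact hGM J τ (hsub (Ioc_subset_Icc_self hτ))
      · exact intervalIntegrable_const
      · refine Eventually.of_forall fun τ hτ => ?_
        rw [uIoc_of_le ht.1] at hτ
        have hτ' := hsub (Ioc_subset_Icc_self hτ)
        have m1 : Tendsto (fun J => tl J wt) atTop (𝓝 0) :=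
          tl_tendsto wt_sum fun k => by unfold wt; positivity
        have m2 : Tendsto (fun J => w J τ) atTop (𝓝 0) := by
          have m3 := (Real.continuous_sqrt.tendsto 0).comp
            (tl_tendsto (EV τ hτ'.1).1 (fun _ => by positivity))
          rw [Real.sqrt_zero] at m3
          exact m3.congr fun J => (hwd J τ).symm
        have m4 : Tendsto (fun J => 2 * (Cn * (a₁ * f τ + e₀ * (M * tl J wt) +
            b₁ * a₁ * w J τ))) atTop
            (𝓝 (2 * (Cn * (a₁ * f τ + e₀ * (M * 0) + b₁ * a₁ * 0)))) := by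
          refine Tendsto.const_mul _ (Tendsto.const_mul _ (Tendsto.add (Tendsto.add ?_ ?_) ?_))
          · exact tendsto_const_nhds
          · exact (m1.const_mul M).const_mul e₀
          · exact m2.const_mul _
        have m5 : 2 * (Cn * (a₁ * f τ + e₀ * (M * 0) + b₁ * a₁ * 0)) =
            2 * (Cn * (a₁ * f τ)) := by ring
        rw [m5] at m4
        exact m4.congr fun J => (hGd J τ).symm
    have l4 := le_of_tendsto_of_tendsto' l1 (l2'.add l3) fun J => key J t ht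
    rw [zero_add] at l4
    refine l4.trans (le_of_eq ?_)
    rw [← intervalIntegral.integral_const_mul]
    refine intervalIntegral.integral_congr fun τ _ => ?_
    ring
  -- Gronwall
  have hz := hG (2 * (Cn * a₁)) (2 * e₀ + 2 * b₁ ^ 2) T' f (by positivity)
    (fun t ht => ⟨hf0 t, hfM t ht⟩) mf hfint t₀ ⟨ht₀.1, hT0.le⟩
  have ht₀' : t₀ ∈ Icc 0 T' := ⟨ht₀.1, hT0.le⟩
  funext k
  have h1 : ∀ k, ‖V t₀ k - U t₀ k‖ ^ 2 ≤ 2 * ‖V t₀ k‖ ^ 2 + 2 * ‖U t₀ k‖ ^ 2 := fun k => by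
    have h3 := norm_sub_le (V t₀ k) (U t₀ k)
    have h4 : ‖V t₀ k - U t₀ k‖ ^ 2 ≤ (‖V t₀ k‖ + ‖U t₀ k‖) ^ 2 :=
      pow_le_pow_left₀ (norm_nonneg _) h3 2
    nlinarith [sq_nonneg (‖V t₀ k‖ - ‖U t₀ k‖)]
  have s3 := ((EV t₀ ht₀.1).1.mul_left 2).add ((sU t₀ ht₀').mul_left 2)
  have s4 := Summable.of_nonneg_of_le (fun _ => by positivity) h1 s3
  have h5 := s4.le_tsum k (fun _ _ => by positivity)
  rw [← hf, hz] at h5
  have h6 : ‖V t₀ k - U t₀ k‖ ^ 2 = 0 := le_antisymm h5 (by positivity)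
  have h7 : ‖V t₀ k - U t₀ k‖ = 0 := (pow_eq_zero_iff two_ne_zero).1 h6
  exact sub_eq_zero.1 (norm_eq_zero.1 h7)

end Pool.Agent.K1H45.NU
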