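import Pool.Agent.K1H54.NU.Stm3
import Pool.Agent.K1H54.LO.UniD
import Pool.Agent.K1H30.OP.Rng

/-!
Weak-strong uniqueness, part 1: truncations and the estimate of the nonlinear terms.
-/

open Set Filter Topology MeasureTheory
open scoped ENNReal

set_option autoImplicit false

namespace Pool.Agent.K1H45.NU

open Pool.Agent.Y5 Pool.Agent.Y5.D Pool.Agent.Y5.E Pool.Agent.K1H54.LO Pool.Agent.K1H54.L2
  Pool.Agent.K1H54.NU
open Pool.Agent.Y301.G (wt wt_sum Bd)
open Pool.Agent.Y248.ND (bil_anti vec_neg)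
open Pool.Agent.Y275.ND (finite_ball)
open Pool.Agent.K1H17.UN (tst tst_ot tst_fin pr pr_orth pair_tst_pr ee inner_eq inner_ee ot_sub
  rap_sub fin_rap A1_one l2_nonneg)
open Pool.Agent.K1H30.OP (bil_low bil_add1 bil_eq_pair BB BB_ot BB_rap rap_add ot_add pair_add psum
  sq0 sum0 sum1)

/-! ### Truncations -/

/-- the frequencies in the ball of radius `J` -/
noncomputable def Fb (J : ℕ) : Finset Z3 := (finite_ball (J : ℝ)).toFinset

lemma mem_Fb {J : ℕ} {k : Z3} : k ∈ Fb J ↔ ‖vec k‖ ≤ (J : ℝ) := by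
  unfold Fb; rw [Set.Finite.mem_toFinset]; rfl

lemma trn_in {J : ℕ} {k : Z3} (V : Fam) (h : k ∈ Fb J) : trn J V k = V k := by
  unfold trn; rw [if_pos (mem_Fb.1 h)]

lemma trn_out {J : ℕ} {k : Z3} (V : Fam) (h : k ∉ Fb J) : trn J V k = 0 := by
  unfold trn; rw [if_neg fun h' => h (mem_Fb.2 h')]

lemma trn_ot {V : Fam} (J : ℕ) (h : OT V) : OT (trn J V) := by
  refine ⟨fun k => ?_, fun k => ?_⟩
  · unfold trn
    rw [vec_neg, norm_neg, h.odd]
    split_ifs
    · rfl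
    · rw [neg_zero]
  · unfold trn
    split_ifs
    · exact h.tan k
    · exact inner_zero_right _

lemma trn_fin (J : ℕ) (V : Fam) : {k | trn J V k ≠ 0}.Finite := by
  refine (Fb J).finite_toSet.subset fun k hk => ?_
  by_contra h
  exact hk (trn_out V h)

lemma trn_rap (J : ℕ) (V : Fam) : Rap (trn J V) := fin_rap (trn_fin J V)

lemma pair_trn (J : ℕ) (A B : Fam) :
    pair A (trn J B) = ∑ k ∈ Fb J, (inner ℝ (A k) (B k) : ℝ) := by
  unfold pair
  rw [tsum_eq_sum (s := Fb J)]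
  · exact Finset.sum_congr rfl fun k hk => by rw [trn_in B hk]
  · intro k hk
    rw [trn_out B hk, inner_zero_right]

lemma lpD_trn (D : Z3 → ℝ) (J : ℕ) (A B : Fam) :
    lpD D A (trn J B) = ∑ k ∈ Fb J, D k * (inner ℝ (A k) (B k) : ℝ) := by
  unfold lpD
  rw [tsum_eq_sum (s := Fb J)]
  · exact Finset.sum_congr rfl fun k hk => by rw [trn_in B hk]
  · intro k hk
    rw [trn_out B hk, inner_zero_right, mul_zero]

/-- the tail of a sum -/
noncomputable def tl (K : ℕ) (f : Z3 → ℝ) : ℝ := ∑' k, if k ∈ Fb K then 0 else f k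

lemma tl_summable {f : Z3 → ℝ} (hf : Summable f) (h0 : ∀ k, 0 ≤ f k) (K : ℕ) :
    Summable (fun k => if k ∈ Fb K then 0 else f k) := by
  refine Summable.of_nonneg_of_le (fun k => ?_) (fun k => ?_) hf
  · split_ifs
    · exact le_rfl
    · exact h0 k
  · split_ifs
    · exact h0 k
    · exact le_rfl

lemma tl_nonneg {f : Z3 → ℝ} (h0 : ∀ k, 0 ≤ f k) (K : ℕ) : 0 ≤ tl K f :=
  tsum_nonneg fun k => by
    split_ifs
    · exact le_rfl
    · exact h0 k

lemma tl_le {f : Z3 → ℝ} (hf : Summable f) (h0 : ∀ k, 0 ≤ f k) (K : ℕ) : tl K f ≤ ∑' k, f k := by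
  refine (tl_summable hf h0 K).tsum_le_tsum (fun k => ?_) hf
  split_ifs
  · exact h0 k
  · exact le_rfl

lemma ev_Fb (k : Z3) : ∀ᶠ K : ℕ in atTop, k ∈ Fb K := by
  obtain ⟨K₀, hK₀⟩ := exists_nat_ge ‖vec k‖
  filter_upwards [eventually_ge_atTop K₀] with K hK
  exact mem_Fb.2 (hK₀.trans (by exact_mod_cast hK))

lemma tl_tendsto {f : Z3 → ℝ} (hf : Summable f) (h0 : ∀ k, 0 ≤ f k) :
    Tendsto (fun K => tl K f) atTop (𝓝 0) := by
  have h1 : Tendsto (fun K : ℕ => ∑' k, if k ∈ Fb K then 0 else f k) atTop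
      (𝓝 (∑' _ : Z3, (0 : ℝ))) := by
    refine tendsto_tsum_of_dominated_convergence (bound := f) hf (fun k => ?_) ?_
    · refine tendsto_const_nhds.congr' ?_
      filter_upwards [ev_Fb k] with K hK
      rw [if_pos hK]
    · refine Eventually.of_forall fun K k => ?_
      split_ifs
      · rw [norm_zero]; exact h0 k
      · rw [Real.norm_of_nonneg (h0 k)]
  rw [tsum_zero] at h1
  exact h1

/-! ### The trilinear form -/

/-- what is used of the nonlinear terms -/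
structure Tri (C : ℝ) (n : Fam → Fam → Fam → ℝ) : Prop where
  C0 : 0 ≤ C
  sub1 : ∀ A A' B Z, OT A → Rap A → OT A' → Rap A' → OT B → Rap B → OT Z → Rap Z →
    n (fun k => A k - A' k) B Z = n A B Z - n A' B Z
  sub3 : ∀ A B Z Z', OT A → Rap A → OT B → Rap B → OT Z → Rap Z → OT Z' → Rap Z' →
    n A B (fun k => Z k - Z' k) = n A B Z - n A B Z'
  skew : ∀ A B Z, OT A → Rap A → OT B → Rap B → OT Z → Rap Z → n A B Z = -n A Z B
  low : ∀ A B Z, OT A → Rap A → OT B → Rap B → OT Z → Rap Z →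
    |n A B Z| ≤ C * (l2 A * A1 1 B * l2 Z)

lemma pair_sub3 {G Z Z' : Fam} (hG : Rap G) (hZ : Rap Z) (hZ' : Rap Z') :
    pair G (fun k => Z k - Z' k) = pair G Z - pair G Z' := by
  unfold pair
  rw [← (psum hG hZ).tsum_sub (psum hG hZ')]
  exact tsum_congr fun k => inner_sub_right _ _ _

lemma tri_of {s δ C : ℝ} {Q : Z3 → Prop} {β : Fam → Fam → Fam → ℝ} (h : FPert s δ C Q β) :
    Tri (2 * Real.pi + |C|) (fun A B Z => bil A B Z + β A B Z) where
  C0 := by positivity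
  sub1 := by
    intro A A' B Z hA hA1 hA' hA1' hB hB1 hZ hZ1
    have e0 : (fun k => (fun k => A k - A' k) k + A' k) = A := by
      funext k; simp
    have hs := ot_sub hA hA'
    have hs1 := rap_sub hA1 hA1'
    have h1 := bil_add1 hs1 hA1' hB1 hZ1
    have h2 := h.add1 (fun k => A k - A' k) A' B Z hs hs1 hA' hA1' hB hB1 hZ hZ1
    rw [e0] at h1 h2
    rw [h1, h2]
    ring
  sub3 := by
    intro A B Z Z' hA hA1 hB hB1 hZ hZ1 hZ' hZ1'
    obtain ⟨G, hG, hG1, hG2⟩ := h.range A B hA hA1 hB hB1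
    have hs := ot_sub hZ hZ'
    have hs1 := rap_sub hZ1 hZ1'
    rw [bil_eq_pair hA1 hB1 hs1 hs, bil_eq_pair hA1 hB1 hZ1 hZ, bil_eq_pair hA1 hB1 hZ1' hZ',
      hG2 _ hs hs1, hG2 _ hZ hZ1, hG2 _ hZ' hZ1', pair_sub3 (BB_rap hA1 hB1) hZ1 hZ1',
      pair_sub3 hG1 hZ1 hZ1']
    ring
  skew := by
    intro A B Z hA hA1 hB hB1 hZ hZ1
    rw [bil_anti A B Z hA, h.skew A B Z hA hA1 hB hB1 hZ hZ1]
    ring
  low := by
    intro A B Z hA hA1 hB hB1 hZ hZ1
    have h1 := bil_low hA1 hB1 hZ1 hA1 hB1 hZ1 (fun _ => le_rfl) (fun _ => le_rfl)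
      (fun _ => le_rfl) hA.tan
    have h2 := h.low A B Z hA hA1 hB hB1 hZ hZ1
    have h3 : 0 ≤ l2 A * A1 1 B * l2 Z :=
      mul_nonneg (mul_nonneg (l2_nonneg _) (Pool.Agent.K1H30.OP.A1_nonneg _ _)) (l2_nonneg _)
    have h4 : C * l2 A * A1 1 B * l2 Z ≤ |C| * (l2 A * A1 1 B * l2 Z) := by
      have := mul_le_mul_of_nonneg_right (le_abs_self C) h3
      calc C * l2 A * A1 1 B * l2 Z = C * (l2 A * A1 1 B * l2 Z) := by ring
        _ ≤ _ := this
    calc |bil A B Z + β A B Z| ≤ |bil A B Z| + |β A B Z| := abs_add_le _ _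
      _ ≤ 2 * Real.pi * (l2 A * A1 1 B * l2 Z) + |C| * (l2 A * A1 1 B * l2 Z) :=
          add_le_add h1 (h2.trans h4)
      _ = _ := by ring

lemma l2_sq (A : Fam) : l2 A ^ 2 = ∑' k, ‖A k‖ ^ 2 := by
  unfold l2
  exact Real.sq_sqrt (tsum_nonneg fun _ => by positivity)

section est

variable {C : ℝ} {n : Fam → Fam → Fam → ℝ}

lemma Tri.sub2 (h : Tri C n) {A B B' Z : Fam} (hA : OT A) (hA1 : Rap A) (hB : OT B) (hB1 : Rap B)
    (hB' : OT B') (hB1' : Rap B') (hZ : OT Z) (hZ1 : Rap Z) :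
    n A (fun k => B k - B' k) Z = n A B Z - n A B' Z := by
  rw [h.skew _ _ _ hA hA1 (ot_sub hB hB') (rap_sub hB1 hB1') hZ hZ1,
    h.sub3 _ _ _ _ hA hA1 hZ hZ1 hB hB1 hB' hB1', h.skew A B Z hA hA1 hB hB1 hZ hZ1,
    h.skew A B' Z hA hA1 hB' hB1' hZ hZ1]
  ring

lemma Tri.self (h : Tri C n) {A B : Fam} (hA : OT A) (hA1 : Rap A) (hB : OT B) (hB1 : Rap B) :
    n A B B = 0 := by
  have := h.skew A B B hA hA1 hB hB1 hB hB1
  linarith

/-- the estimate of the nonlinear terms -/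
theorem Tri.est (h : Tri C n) {V U : Fam} (hV : OT V) (sV : Summable fun k => ‖V k‖ ^ 2)
    (hU : OT U) (rU : Rap U) {J K : ℕ} (hJK : J ≤ K) :
    |n (trn K V) (trn K V) (trn J U) + n U U (trn J V)| ≤
      C * (A1 1 U * (∑' k, ‖V k - U k‖ ^ 2 + tl K (fun k => ‖U k‖ ^ 2)) +
        (∑' k, ‖V k‖ ^ 2) * tl J (fun k => ‖vec k‖ * ‖U k‖) +
        l2 U * A1 1 U * √(tl J (fun k => ‖V k‖ ^ 2))) := by
  have oK := trn_ot K hV
  have rK := trn_rap K V
  have oJ := trn_ot J hU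
  have rJ := trn_rap J U
  have oJ' := trn_ot J hV
  have rJ' := trn_rap J V
  have ow := ot_sub oK hU
  have rw' := rap_sub rK rU
  have sU := sq0 rU
  have sVU : Summable fun k => ‖V k - U k‖ ^ 2 := by
    refine Summable.of_nonneg_of_le (fun _ => by positivity) (fun k => ?_)
      ((sV.mul_left 2).add (sU.mul_left 2))
    have h3 := norm_sub_le (V k) (U k)
    have h4 : ‖V k - U k‖ ^ 2 ≤ (‖V k‖ + ‖U k‖) ^ 2 := pow_le_pow_left₀ (norm_nonneg _) h3 2
    nlinarith [sq_nonneg (‖V k‖ - ‖U k‖)]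
  -- the algebraic identity
  have e1 : n (trn K V) (trn K V) (trn J U) = -n (trn K V) (trn J U) (trn K V) :=
    h.skew _ _ _ oK rK oK rK oJ rJ
  have e2 : n (fun k => trn K V k - U k) U (fun k => trn K V k - U k) =
      n (trn K V) U (trn K V) - n U U (trn K V) := by
    rw [h.sub1 _ _ _ _ oK rK hU rU hU rU ow rw', h.sub3 _ _ _ _ oK rK hU rU oK rK hU rU,
      h.sub3 _ _ _ _ hU rU hU rU oK rK hU rU, h.self oK rK hU rU, h.self hU rU hU rU]
    ring
  have e3 : n (trn K V) (fun k => U k - trn J U k) (trn K V) =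
      n (trn K V) U (trn K V) - n (trn K V) (trn J U) (trn K V) :=
    h.sub2 oK rK hU rU oJ rJ oK rK
  have e4 : n U U (fun k => trn K V k - trn J V k) = n U U (trn K V) - n U U (trn J V) :=
    h.sub3 _ _ _ _ hU rU hU rU oK rK oJ' rJ'
  have e5 : n (trn K V) (trn K V) (trn J U) + n U U (trn J V) =
      -n (fun k => trn K V k - U k) U (fun k => trn K V k - U k) +
      n (trn K V) (fun k => U k - trn J U k) (trn K V) -
      n U U (fun k => trn K V k - trn J V k) := by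
    rw [e1, e2, e3, e4]; ring
  -- the three bounds
  have b1 := h.low _ _ _ ow rw' hU rU ow rw'
  have b2 := h.low _ _ _ oK rK (ot_sub hU oJ) (rap_sub rU rJ) oK rK
  have b3 := h.low _ _ _ hU rU hU rU (ot_sub oK oJ') (rap_sub rK rJ')
  have hA := Pool.Agent.K1H30.OP.A1_nonneg 1 U
  have c1 : l2 (fun k => trn K V k - U k) ^ 2 ≤
      ∑' k, ‖V k - U k‖ ^ 2 + tl K (fun k => ‖U k‖ ^ 2) := by
    rw [l2_sq]
    unfold tl
    rw [← sVU.tsum_add (tl_summable sU (fun _ => by positivity) K)]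
    refine (sq0 rw').tsum_le_tsum (fun k => ?_)
      (sVU.add (tl_summable sU (fun _ => by positivity) K))
    by_cases hk : k ∈ Fb K
    · rw [trn_in V hk, if_pos hk, add_zero]
    · rw [trn_out V hk, if_neg hk, zero_sub, norm_neg]
      have : 0 ≤ ‖V k - U k‖ ^ 2 := by positivity
      linarith
  have c2 : l2 (trn K V) ^ 2 ≤ ∑' k, ‖V k‖ ^ 2 := by
    rw [l2_sq]
    refine (sq0 rK).tsum_le_tsum (fun k => ?_) sV
    by_cases hk : k ∈ Fb K
    · rw [trn_in V hk]
    · rw [trn_out V hk, norm_zero]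
      have : 0 ≤ ‖V k‖ ^ 2 := sq_nonneg _
      simpa using this
  have c3 : A1 1 (fun k => U k - trn J U k) = tl J (fun k => ‖vec k‖ * ‖U k‖) := by
    rw [A1_one]
    unfold tl
    refine tsum_congr fun k => ?_
    by_cases hk : k ∈ Fb J
    · rw [trn_in U hk, if_pos hk, sub_self, norm_zero, mul_zero]
    · rw [trn_out U hk, if_neg hk, sub_zero]
  have c4 : l2 (fun k => trn K V k - trn J V k) ≤ √(tl J (fun k => ‖V k‖ ^ 2)) := by
    unfold l2
    refine Real.sqrt_le_sqrt ?_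
    unfold tl
    refine (sq0 (rap_sub rK rJ')).tsum_le_tsum (fun k => ?_)
      (tl_summable sV (fun _ => by positivity) J)
    show ‖trn K V k - trn J V k‖ ^ 2 ≤ if k ∈ Fb J then 0 else ‖V k‖ ^ 2
    by_cases hk : k ∈ Fb J
    · have hk' : k ∈ Fb K := mem_Fb.2 ((mem_Fb.1 hk).trans (by exact_mod_cast hJK))
      rw [trn_in V hk, trn_in V hk', if_pos hk, sub_self, norm_zero]
      norm_num
    · rw [trn_out V hk, if_neg hk, sub_zero]
      by_cases hk' : k ∈ Fb K
      · rw [trn_in V hk']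
      · rw [trn_out V hk', norm_zero]
        have : 0 ≤ ‖V k‖ ^ 2 := sq_nonneg _
        simpa using this
  rw [e5]
  have hC := h.C0
  have htl : 0 ≤ tl J (fun k => ‖vec k‖ * ‖U k‖) := tl_nonneg (fun _ => by positivity) J
  calc |-n (fun k => trn K V k - U k) U (fun k => trn K V k - U k) +
        n (trn K V) (fun k => U k - trn J U k) (trn K V) -
        n U U (fun k => trn K V k - trn J V k)|
      ≤ |n (fun k => trn K V k - U k) U (fun k => trn K V k - U k)| +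
        |n (trn K V) (fun k => U k - trn J U k) (trn K V)| +
        |n U U (fun k => trn K V k - trn J V k)| := by
        refine (abs_sub _ _).trans (add_le_add ((abs_add_le _ _).trans ?_) le_rfl)
        rw [abs_neg]
    _ ≤ C * (l2 (fun k => trn K V k - U k) * A1 1 U * l2 (fun k => trn K V k - U k)) +
        C * (l2 (trn K V) * A1 1 (fun k => U k - trn J U k) * l2 (trn K V)) +
        C * (l2 U * A1 1 U * l2 (fun k => trn K V k - trn J V k)) :=
        add_le_add (add_le_add b1 b2) b3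
    _ = C * (A1 1 U * l2 (fun k => trn K V k - U k) ^ 2 +
        l2 (trn K V) ^ 2 * tl J (fun k => ‖vec k‖ * ‖U k‖) +
        l2 U * A1 1 U * l2 (fun k => trn K V k - trn J V k)) := by rw [c3]; ring
    _ ≤ _ := by
        refine mul_le_mul_of_nonneg_left (add_le_add (add_le_add ?_ ?_) ?_) hC
        · exact mul_le_mul_of_nonneg_left c1 hA
        · exact mul_le_mul_of_nonneg_right c2 htl
        · exact mul_le_mul_of_nonneg_left c4 (mul_nonneg (l2_nonneg _) hA)

end est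

end Pool.Agent.K1H45.NU
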