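import Pool.Agent.K1H45.NU.Wsu1

/-!
Weak-strong uniqueness, part 2: the product rule, continuity, measurability, energy.
-/

open Set Filter Topology MeasureTheory
open scoped ENNReal

set_option autoImplicit false

namespace Pool.Agent.K1H45.NU

open Pool.Agent.Y5 Pool.Agent.Y5.D Pool.Agent.Y5.E Pool.Agent.K1H54.LO Pool.Agent.K1H54.L2
  Pool.Agent.K1H54.NU
open Pool.Agent.Y301.G (wt wt_sum Bd)
open Pool.Agent.K1H17.UN (tst tst_ot tst_fin pr pr_orth pair_tst_pr ee inner_eq inner_ee ot_sub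
  rap_sub fin_rap A1_one l2_nonneg)

/-- the product rule -/
theorem prodrule {A B : ℝ → Fam} {S : Set ℝ} {t : ℝ} {RA RB : Fam → ℝ} (J : ℕ) (ht : t ∈ S)
    (hS : UniqueDiffWithinAt ℝ S t) (hA : ∀ τ ∈ S, OT (A τ)) (hB : ∀ τ ∈ S, OT (B τ))
    (hRA : ∀ Z, OT Z → {k | Z k ≠ 0}.Finite →
      HasDerivWithinAt (fun τ => pair (A τ) Z) (RA Z) S t)
    (hRB : ∀ Z, OT Z → {k | Z k ≠ 0}.Finite →
      HasDerivWithinAt (fun τ => pair (B τ) Z) (RB Z) S t) :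
    HasDerivWithinAt (fun τ => pair (A τ) (trn J (B τ)))
      (RA (trn J (B t)) + RB (trn J (A t))) S t := by
  have hz : ∀ k i, OT (tst k (pr k (ee i))) := fun k i => tst_ot (pr_orth k _)
  have a1 : ∀ k i, HasDerivWithinAt (fun τ => pair (A τ) (tst k (pr k (ee i))))
      (RA (tst k (pr k (ee i)))) S t := fun k i => hRA _ (hz k i) (tst_fin _ _)
  have b1 : ∀ k i, HasDerivWithinAt (fun τ => pair (B τ) (tst k (pr k (ee i))))
      (RB (tst k (pr k (ee i)))) S t := fun k i => hRB _ (hz k i) (tst_fin _ _)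
  have ex : ∀ (X Y : Fam), OT X → OT Y → pair X (trn J Y) =
      ∑ k ∈ Fb J, ∑ i, pair X (tst k (pr k (ee i))) * pair Y (tst k (pr k (ee i))) := by
    intro X Y hX hY
    rw [pair_trn]
    refine Finset.sum_congr rfl fun k _ => ?_
    rw [inner_eq]
    refine Finset.sum_congr rfl fun i _ => ?_
    rw [pair_tst_pr hX, pair_tst_pr hY]
  have f1 : HasDerivWithinAt
      (fun τ => ∑ k ∈ Fb J, ∑ i, pair (A τ) (tst k (pr k (ee i))) *
        pair (B τ) (tst k (pr k (ee i))))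
      (∑ k ∈ Fb J, ∑ i, (RA (tst k (pr k (ee i))) * pair (B t) (tst k (pr k (ee i))) +
        pair (A t) (tst k (pr k (ee i))) * RB (tst k (pr k (ee i))))) S t :=
    HasDerivWithinAt.fun_sum fun k _ => HasDerivWithinAt.fun_sum fun i _ =>
      (a1 k i).mul (b1 k i)
  have f2 : RA (trn J (B t)) = ∑ k ∈ Fb J, ∑ i, RA (tst k (pr k (ee i))) *
      pair (B t) (tst k (pr k (ee i))) := by
    have g1 := hRA _ (trn_ot J (hB t ht)) (trn_fin J _)
    have g2 : HasDerivWithinAt (fun τ => pair (A τ) (trn J (B t)))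
        (∑ k ∈ Fb J, ∑ i, RA (tst k (pr k (ee i))) * pair (B t) (tst k (pr k (ee i)))) S t :=
      (HasDerivWithinAt.fun_sum fun k _ => HasDerivWithinAt.fun_sum fun i _ =>
        (a1 k i).mul_const (pair (B t) (tst k (pr k (ee i))))).congr
          (fun τ hτ => ex (A τ) (B t) (hA τ hτ) (hB t ht)) (ex _ _ (hA t ht) (hB t ht))
    exact hS.eq_deriv _ g1 g2
  have f3 : RB (trn J (A t)) = ∑ k ∈ Fb J, ∑ i, RB (tst k (pr k (ee i))) *
      pair (A t) (tst k (pr k (ee i))) := by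
    have g1 := hRB _ (trn_ot J (hA t ht)) (trn_fin J _)
    have g2 : HasDerivWithinAt (fun τ => pair (B τ) (trn J (A t)))
        (∑ k ∈ Fb J, ∑ i, RB (tst k (pr k (ee i))) * pair (A t) (tst k (pr k (ee i)))) S t :=
      (HasDerivWithinAt.fun_sum fun k _ => HasDerivWithinAt.fun_sum fun i _ =>
        (b1 k i).mul_const (pair (A t) (tst k (pr k (ee i))))).congr
          (fun τ hτ => ex (B τ) (A t) (hB τ hτ) (hA t ht)) (ex _ _ (hB t ht) (hA t ht))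
    exact hS.eq_deriv _ g1 g2
  have f4 := f1.congr (fun τ hτ => ex (A τ) (B τ) (hA τ hτ) (hB τ hτ))
    (ex (A t) (B t) (hA t ht) (hB t ht))
  refine f4.congr_deriv ?_
  rw [f2, f3, ← Finset.sum_add_distrib]
  refine Finset.sum_congr rfl fun k _ => ?_
  rw [← Finset.sum_add_distrib]
  refine Finset.sum_congr rfl fun i _ => ?_
  ring

lemma ee_sum (x : E3) : x = ∑ i, (inner ℝ x (ee i) : ℝ) • ee i := by
  refine ext_inner_right ℝ fun y => ?_
  rw [inner_eq x y, sum_inner]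
  refine Finset.sum_congr rfl fun i _ => ?_
  rw [real_inner_smul_left, real_inner_comm y (ee i)]

/-- continuity of the coefficients -/
theorem cont_coef {A : ℝ → Fam} {S : Set ℝ} (hA : ∀ τ ∈ S, OT (A τ))
    (hR : ∀ Z, OT Z → {k | Z k ≠ 0}.Finite → ContinuousOn (fun τ => pair (A τ) Z) S) (k : Z3) :
    ContinuousOn (fun τ => A τ k) S := by
  have h1 : ContinuousOn (fun τ => ∑ i, pair (A τ) (tst k (pr k (ee i))) • ee i) S :=
    continuousOn_finsetSum _ fun i _ =>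
      (hR _ (tst_ot (pr_orth k _)) (tst_fin _ _)).smul continuousOn_const
  refine h1.congr fun τ hτ => ?_
  simp only
  rw [ee_sum (A τ k)]
  refine Finset.sum_congr rfl fun i _ => ?_
  rw [pair_tst_pr (hA τ hτ)]

/-- measurability of sums -/
theorem meas_sum {A : ℝ → Z3 → ℝ} {S : Set ℝ} (hS : MeasurableSet S)
    (h : ∀ k, ContinuousOn (fun τ => A τ k) S) (h0 : ∀ τ k, 0 ≤ A τ k) :
    AEStronglyMeasurable (fun τ => ∑' k, A τ k) (volume.restrict S) := by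
  have e : (fun τ => ∑' k, A τ k) = fun τ => (∑' k, ENNReal.ofReal (A τ k)).toReal := by
    funext τ
    rw [ENNReal.tsum_toReal_eq fun k => ENNReal.ofReal_ne_top]
    exact tsum_congr fun k => (ENNReal.toReal_ofReal (h0 τ k)).symm
  rw [e]
  exact (AEMeasurable.tsum fun k =>
    ((h k).aemeasurable hS).ennreal_ofReal).ennreal_toReal.aestronglyMeasurable

lemma enorm_sq_eq (x : E3) : ‖x‖ₑ ^ 2 = ENNReal.ofReal (‖x‖ ^ 2) := by
  rw [ENNReal.ofReal_pow (norm_nonneg _), ofReal_norm]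

lemma fin_sq {W : Fam} (h : ∑' k, ‖W k‖ₑ ^ 2 ≠ ⊤) :
    Summable (fun k => ‖W k‖ ^ 2) ∧ ∑' k, ‖W k‖ₑ ^ 2 = ENNReal.ofReal (∑' k, ‖W k‖ ^ 2) := by
  have h1 := ENNReal.summable_toReal h
  have h2 : (fun k => (‖W k‖ₑ ^ 2).toReal) = fun k => ‖W k‖ ^ 2 := by
    funext k
    rw [enorm_sq_eq, ENNReal.toReal_ofReal (sq_nonneg _)]
  rw [h2] at h1
  refine ⟨h1, ?_⟩
  rw [ENNReal.ofReal_tsum_of_nonneg (fun k => sq_nonneg _) h1]
  exact tsum_congr fun k => enorm_sq_eq _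

lemma real_of_ennreal {a b c : ℝ} (ha : 0 ≤ a) (hb : 0 ≤ b) (hc : 0 ≤ c)
    (h : ENNReal.ofReal a + 2 * ENNReal.ofReal b ≤ ENNReal.ofReal c) : a + 2 * b ≤ c := by
  have h5 : (2 : ℝ≥0∞) = ENNReal.ofReal 2 := by simp
  rw [h5, ← ENNReal.ofReal_mul (by norm_num), ← ENNReal.ofReal_add ha (by positivity)] at h
  exact (ENNReal.ofReal_le_ofReal_iff hc).1 h

/-- the energy inequality of the weak solution -/
theorem energyV {D : Z3 → ℝ} (hD : ∀ k, 0 ≤ D k) {V : ℝ → Fam} (h0 : ∑' k, ‖V 0 k‖ₑ ^ 2 ≠ ⊤)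
    (hE : FEI D V 0) (hc : ∀ k, ContinuousOn (fun τ => V τ k) (Ici 0)) {t : ℝ} (ht : 0 ≤ t) :
    Summable (fun k => ‖V t k‖ ^ 2) ∧ ∀ J : ℕ, ∑' k, ‖V t k‖ ^ 2 +
      2 * ∫ τ in (0 : ℝ)..t, ∑ k ∈ Fb J, D k * ‖V τ k‖ ^ 2 ≤ ∑' k, ‖V 0 k‖ ^ 2 := by
  have h1 := hE t ht
  have h2 : ∑' k, ‖V t k‖ₑ ^ 2 ≠ ⊤ := ((le_self_add.trans h1).trans_lt h0.lt_top).ne
  obtain ⟨s0, e0⟩ := fin_sq h0
  obtain ⟨st, et⟩ := fin_sq h2
  refine ⟨st, fun J => ?_⟩
  have hcA : ContinuousOn (fun τ => ∑ k ∈ Fb J, D k * ‖V τ k‖ ^ 2) (Icc 0 t) :=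
    continuousOn_finsetSum _ fun k _ =>
      continuousOn_const.mul (((hc k).mono Icc_subset_Ici_self).norm.pow 2)
  have hint : IntegrableOn (fun τ => ∑ k ∈ Fb J, D k * ‖V τ k‖ ^ 2) (Ioc 0 t) :=
    (hcA.integrableOn_Icc).mono_set Ioc_subset_Icc_self
  have hnn : ∀ τ, 0 ≤ ∑ k ∈ Fb J, D k * ‖V τ k‖ ^ 2 := fun τ =>
    Finset.sum_nonneg fun k _ => mul_nonneg (hD k) (sq_nonneg _)
  have h3 : ENNReal.ofReal (∫ τ in (0 : ℝ)..t, ∑ k ∈ Fb J, D k * ‖V τ k‖ ^ 2) ≤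
      ∫⁻ τ in Ioc 0 t, ∑' k, ENNReal.ofReal (D k) * ‖V τ k‖ₑ ^ 2 := by
    rw [intervalIntegral.integral_of_le ht,
      ofReal_integral_eq_lintegral_ofReal hint (Eventually.of_forall hnn)]
    refine lintegral_mono fun τ => ?_
    simp only
    rw [ENNReal.ofReal_sum_of_nonneg fun k _ => mul_nonneg (hD k) (sq_nonneg _)]
    refine le_trans (le_of_eq ?_) (ENNReal.sum_le_tsum (Fb J))
    refine Finset.sum_congr rfl fun k _ => ?_
    rw [ENNReal.ofReal_mul (hD k), enorm_sq_eq]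
  have h4 : ENNReal.ofReal (∑' k, ‖V t k‖ ^ 2) +
      2 * ENNReal.ofReal (∫ τ in (0 : ℝ)..t, ∑ k ∈ Fb J, D k * ‖V τ k‖ ^ 2) ≤
      ENNReal.ofReal (∑' k, ‖V 0 k‖ ^ 2) := by
    rw [← e0, ← et]
    exact (add_le_add le_rfl (mul_le_mul_right h3 2)).trans h1
  have hI : 0 ≤ ∫ τ in (0 : ℝ)..t, ∑ k ∈ Fb J, D k * ‖V τ k‖ ^ 2 :=
    intervalIntegral.integral_nonneg ht fun τ _ => hnn τ
  exact real_of_ennreal (tsum_nonneg fun _ => sq_nonneg _) hI (tsum_nonneg fun _ => sq_nonneg _) h4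

lemma lp_summable {D : Z3 → ℝ} {C₁ M : ℝ} {U : Fam} (hD : ∀ k, 0 ≤ D k)
    (hC : ∀ k, D k ≤ C₁ * (1 + ‖vec k‖) ^ 3) (h : Bd M U) :
    Summable (fun k => D k * (inner ℝ (U k) (U k) : ℝ)) := by
  refine Summable.of_nonneg_of_le (fun k => mul_nonneg (hD k) real_inner_self_nonneg)
    (fun k => ?_) ((h.sum).mul_left (|C₁| * M))
  have h1 := sym_bd hD hC h k
  rw [real_inner_self_eq_norm_sq]
  calc D k * ‖U k‖ ^ 2 = (D k * ‖U k‖) * ‖U k‖ := by ring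
    _ ≤ |C₁| * M * ‖U k‖ := mul_le_mul_of_nonneg_right h1 (norm_nonneg _)

lemma pair_self (U : Fam) : pair U U = ∑' k, ‖U k‖ ^ 2 :=
  tsum_congr fun _ => real_inner_self_eq_norm_sq _

/-- the energy inequality of the smooth solution -/
theorem energyU {s δ C C₁ T : ℝ} {D : Z3 → ℝ} {Q : Z3 → Prop} {β : Fam → Fam → Fam → ℝ}
    (hD : ∀ k, 0 ≤ D k) (hC : ∀ k, D k ≤ C₁ * (1 + ‖vec k‖) ^ 3) (h : FPert s δ C Q β)
    {U : ℝ → Fam} (hU : FSolD D β T U) (hc : ∀ k, ContinuousOn (fun τ => U τ k) (Ico 0 T))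
    {t : ℝ} (ht : t ∈ Ico 0 T) (J : ℕ) :
    ∑' k, ‖U t k‖ ^ 2 + 2 * ∫ τ in (0 : ℝ)..t, ∑ k ∈ Fb J, D k * ‖U τ k‖ ^ 2 ≤
      ∑' k, ‖U 0 k‖ ^ 2 := by
  have hsub : Icc 0 t ⊆ Ico 0 T := fun x hx => ⟨hx.1, hx.2.trans_lt ht.2⟩
  obtain ⟨M, hM⟩ := exB hU ht.2
  have hcA : ContinuousOn (fun τ => ∑ k ∈ Fb J, D k * ‖U τ k‖ ^ 2) (Icc 0 t) :=
    continuousOn_finsetSum _ fun k _ => continuousOn_const.mul (((hc k).mono hsub).norm.pow 2)
  have hen := fun x (hx : x ∈ Ico 0 T) => energy hD hC h hU hx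
  have h1 := intervalIntegral.sub_le_integral_of_hasDeriv_right_of_le (a := 0) (b := t)
    (g := fun τ => pair (U τ) (U τ)) (g' := fun τ => -(2 * lpD D (U τ) (U τ)))
    (φ := fun τ => -(2 * ∑ k ∈ Fb J, D k * ‖U τ k‖ ^ 2)) ht.1
    (fun x hx => ((hen x (hsub hx)).continuousWithinAt).mono hsub)
    (fun x hx => ((hen x (hsub (Ioo_subset_Icc_self hx))).hasDerivAt
      (Ico_mem_nhds hx.1 (hx.2.trans ht.2))).hasDerivWithinAt)
    ((continuousOn_const.mul hcA).neg.integrableOn_Icc) (fun x hx => by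
      have h2 : ∑ k ∈ Fb J, D k * ‖U x k‖ ^ 2 ≤ lpD D (U x) (U x) := by
        have h3 : ∑ k ∈ Fb J, D k * ‖U x k‖ ^ 2 =
            ∑ k ∈ Fb J, D k * (inner ℝ (U x k) (U x k) : ℝ) :=
          Finset.sum_congr rfl fun k _ => by rw [real_inner_self_eq_norm_sq]
        rw [h3]
        exact (lp_summable hD hC (hM x (Ioo_subset_Icc_self hx))).sum_le_tsum _
          fun k _ => mul_nonneg (hD k) real_inner_self_nonneg
      linarith)
  rw [intervalIntegral.integral_neg, intervalIntegral.integral_const_mul] at h1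
  rw [pair_self, pair_self] at h1
  linarith

end Pool.Agent.K1H45.NU
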